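import Mathlib

set_option autoImplicit false

namespace Pool.Agent.Results.MP_513688_co.NotCospectral

open Matrix

/-- diagonalizable over `ℂ` -/
def Diagonalizable {n : ℕ} (A : Matrix (Fin n) (Fin n) ℝ) : Prop :=
  ∃ (P Q : Matrix (Fin n) (Fin n) ℂ) (d : Fin n → ℂ), P * Q = 1 ∧
    A.map (fun x => (x : ℂ)) = P * diagonal d * Q

def A0 : Matrix (Fin 4) (Fin 4) ℝ := !![0, 0, 2, 2; 2, 1, 0, 1; 0, 2, 2, 0; 2, 1, 0, 1]

theorem A2 : A0 ^ 2 = !![4, 6, 4, 2; 4, 2, 4, 6; 4, 6, 4, 2; 4, 2, 4, 6] := by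
  rw [sq, A0]; ext i j; fin_cases i <;> fin_cases j <;> simp [Matrix.mul_apply, Fin.sum_univ_four] <;>
  norm_num

theorem Ak (r : ℕ) : A0 ^ (r + 3) = of (fun _ _ => 4 ^ (r + 2)) := by
  induction r with
  | zero =>
    rw [zero_add, pow_succ, A2, A0]
    ext i j; fin_cases i <;> fin_cases j <;> simp [Matrix.mul_apply, Fin.sum_univ_four] <;> norm_num
  | succ r ih =>
    rw [show r + 1 + 3 = (r + 3) + 1 by ring, pow_succ, ih, A0]
    ext i j; fin_cases j <;> simp [Matrix.mul_apply, Fin.sum_univ_four] <;> ring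

theorem summ (i j : Fin 4) : Summable fun r : ℕ => (r.factorial : ℝ)⁻¹ * (A0 ^ r) i j := by
  rw [← summable_nat_add_iff 3]
  have := ((summable_nat_add_iff 3).2 (Real.summable_pow_div_factorial 4)).mul_left (1 / 4)
  refine this.congr (fun r => ?_)
  rw [Ak]; simp only [of_apply]; ring

theorem exp_entry (i : Fin 4) :
    NormedSpace.exp A0 i i = ∑' r : ℕ, (r.factorial : ℝ)⁻¹ * (A0 ^ r) i i := by
  have h : Summable fun r : ℕ => (r.factorial : ℝ)⁻¹ • A0 ^ r :=
    Pi.summable.2 (fun i => Pi.summable.2 (fun j => summ i j))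
  rw [NormedSpace.exp_eq_tsum ℝ]
  have h2 := Pi.hasSum.1 (Pi.hasSum.1 h.hasSum i) i
  exact h2.tsum_eq.symm

theorem result : ∃ (n : ℕ) (A : Matrix (Fin n) (Fin n) ℝ) (β : ℝ) (i j : Fin n),
    (∀ u v, 0 ≤ A u v ∧ IsAlgebraic ℚ (A u v)) ∧ ¬ Diagonalizable A ∧ β ≠ 0 ∧ IsAlgebraic ℚ β ∧
    NormedSpace.exp (β • A) i i = NormedSpace.exp (β • A) j j ∧ ∃ r : ℕ, (A ^ r) i i ≠ (A ^ r) j j := by
  refine ⟨4, A0, 1, 0, 1, ?_, ?_, one_ne_zero, isAlgebraic_one, ?_, 1, by simp [A0]⟩
  · have h2 : IsAlgebraic ℚ (2 : ℝ) := by exact_mod_cast isAlgebraic_nat (R := ℚ) (A := ℝ) 2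
    intro u v
    fin_cases u <;> fin_cases v <;> simp [A0, isAlgebraic_zero, isAlgebraic_one, h2]
  · rintro ⟨P, Q, d, h1, h2⟩
    have h3 : Q * P = 1 := mul_eq_one_comm.1 h1
    set B := A0.map (fun x => (x : ℂ)) with hB
    have hp : ∀ r : ℕ, B ^ r = P * diagonal (d ^ r) * Q := by
      intro r
      induction r with
      | zero => simp [h1]
      | succ r ih =>
        rw [pow_succ, ih, h2, pow_succ]
        calc _ = P * diagonal (d ^ r) * (Q * P) * diagonal d * Q := by simp only [Matrix.mul_assoc]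
          _ = _ := by rw [h3, Matrix.mul_one, Matrix.mul_assoc P, diagonal_mul_diagonal]; rfl
    have hm : ∀ r : ℕ, B ^ r = (A0 ^ r).map (fun x => (x : ℂ)) := fun r =>
      (map_pow (Complex.ofRealHom.mapMatrix) A0 r).symm
    have h4 : B ^ 4 = (4 : ℂ) • B ^ 3 := by
      rw [hm, hm, Ak 1, Ak 0]; ext i j; simp; norm_num
    have h5 : diagonal (d ^ 4) = (4 : ℂ) • diagonal (d ^ 3) := by
      have := congrArg (fun M => Q * M * P) h4
      simp only [hp, Matrix.mul_smul, Matrix.smul_mul, ← Matrix.mul_assoc, h3, Matrix.one_mul] at this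
      simpa only [Matrix.mul_assoc, h3, Matrix.mul_one] using this
    have h6 : diagonal (d ^ 2) = (4 : ℂ) • diagonal (d ^ 1) := by
      ext i j
      by_cases hij : i = j
      · subst hij
        have := congrFun (congrFun h5 i) i
        simp only [diagonal_apply_eq, Pi.pow_apply, Matrix.smul_apply, smul_eq_mul] at this ⊢
        by_cases h0 : d i = 0
        · simp [h0]
        · exact mul_left_cancel₀ (pow_ne_zero 2 h0) (by linear_combination this)
      · simp [hij]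
    have h7 : B ^ 2 = (4 : ℂ) • B ^ 1 := by
      rw [hp, hp, h6, Matrix.mul_smul, Matrix.smul_mul]
    have := congrFun (congrFun h7 0) 0
    rw [hm, hm, A2] at this
    simp [A0] at this
  · rw [one_smul, exp_entry, exp_entry, ← (summ 0 0).sum_add_tsum_nat_add 3,
      ← (summ 1 1).sum_add_tsum_nat_add 3]
    simp only [Ak, of_apply, Finset.sum_range_succ, A2]
    simp [A0]
    norm_num

end Pool.Agent.Results.MP_513688_co.NotCospectral
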